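import Pool.Agent.W315.LatDefs
import Pool.Agent.Results.MP_6045b2_co.FairLattice

/-!
The formula for the biased lattice achievement numbers fails.
-/

set_option autoImplicit false
set_option linter.unusedVariables false

namespace Pool.Agent.Results.MP_58ead2_co.AchievementFails

open Finset Pool.Agent.W315.Lat

lemma bias_same (k i : ℕ) : bias k k i = k := by
  unfold bias
  split_ifs <;> rfl

/-- from the fair game to the general definitions -/
lemma of_fair {k N q : ℕ} (h : MP_6045b2_co.FairLattice.MakerCanBuild k N q) :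
    MakerWins k k N Cls.parallelogram q := by
  obtain ⟨σ, h1, h2⟩ := h
  have hP : ∀ h : List (Finset (ℤ × ℤ)), IsPlay k k N h →
      MP_6045b2_co.FairLattice.IsPlay k N h := by
    intro h hp i hi
    have := hp i hi
    rw [bias_same] at this
    exact this
  refine ⟨σ, ?_, ?_⟩
  · intro h hp hf hl hne
    rw [bias_same]
    exact h1 h (hP h hp) hf hl hne
  · intro h hp hf hu
    obtain ⟨a, u, v, hi, hown⟩ := h2 h (hP h hp) hf hu
    exact ⟨a, u, v, hi, trivial, fun i j hi hj => hown i j hi hj⟩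

lemma logb_bound (k : ℕ) (hk : 6 ≤ k) :
    (2.05 : ℝ) ^ 2 * Real.logb 2 ((k : ℝ) + 1) < 2 * k := by
  have h7 := MP_6045b2_co.FairLattice.logb_seven
  have hl2 : (0.69 : ℝ) < Real.log 2 := by
    have := Real.log_two_gt_d9
    linarith
  have hk6 : (6 : ℝ) ≤ k := by exact_mod_cast hk
  have h1 : Real.logb 2 ((k : ℝ) + 1) = Real.logb 2 7 + Real.logb 2 (((k : ℝ) + 1) / 7) := by
    rw [← Real.logb_mul (by norm_num) (by positivity)]
    congr 1
    field_simp
  have h2 : Real.logb 2 (((k : ℝ) + 1) / 7) ≤ ((k : ℝ) - 6) / 7 / 0.69 := by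
    unfold Real.logb
    have h3 : Real.log (((k : ℝ) + 1) / 7) ≤ ((k : ℝ) + 1) / 7 - 1 :=
      Real.log_le_sub_one_of_pos (by positivity)
    have h4 : ((k : ℝ) + 1) / 7 - 1 = ((k : ℝ) - 6) / 7 := by ring
    rw [h4] at h3
    have h5 : 0 ≤ ((k : ℝ) - 6) / 7 := by
      apply div_nonneg <;> linarith
    calc Real.log (((k : ℝ) + 1) / 7) / Real.log 2 ≤ (((k : ℝ) - 6) / 7) / Real.log 2 :=
          div_le_div_of_nonneg_right h3 (by linarith)
      _ ≤ ((k : ℝ) - 6) / 7 / 0.69 := div_le_div_of_nonneg_left h5 (by norm_num) hl2.le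
  rw [h1]
  have h6 : ((k : ℝ) - 6) / 7 / 0.69 = ((k : ℝ) - 6) * (100 / 483) := by ring
  rw [h6] at h2
  norm_num at h7 ⊢
  nlinarith

/-- For every `k ≥ 6` the formula for the achievement number of parallelogram lattices fails in the
`(k:k)` game: for all large `N` Maker even achieves some `q ≥ 2.05 √(log₂ N)`, while
`g_X(N) = 2 √(log₂ N)`. In particular the statement of Q1 is false. -/
theorem result :
    (∀ k : ℕ, 6 ≤ k →
      (∀ N : ℕ, gX k k Cls.parallelogram N = 2 * Real.sqrt (Real.logb 2 N)) ∧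
      (∃ N₀ : ℕ, ∀ N : ℕ, N₀ ≤ N → ∃ q : ℕ, 2.05 * Real.sqrt (Real.logb 2 N) ≤ q ∧
        MakerWins k k N Cls.parallelogram q) ∧
      ¬ Formula (fun N q => MakerWins k k N Cls.parallelogram q)
        (gX k k Cls.parallelogram)) ∧
    ¬ (∀ (m b : ℕ) (X : Cls), 1 ≤ m → 1 ≤ b →
      Formula (fun N q => MakerWins m b N X q) (gX m b X)) := by
  have key : ∀ k : ℕ, 6 ≤ k →
      (∀ N : ℕ, gX k k Cls.parallelogram N = 2 * Real.sqrt (Real.logb 2 N)) ∧
      (∃ N₀ : ℕ, ∀ N : ℕ, N₀ ≤ N → ∃ q : ℕ, 2.05 * Real.sqrt (Real.logb 2 N) ≤ q ∧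
        MakerWins k k N Cls.parallelogram q) ∧
      ¬ Formula (fun N q => MakerWins k k N Cls.parallelogram q)
        (gX k k Cls.parallelogram) := by
    intro k hk
    have hg : ∀ N : ℕ, gX k k Cls.parallelogram N = 2 * Real.sqrt (Real.logb 2 N) := by
      intro N
      have hk0 : (k : ℝ) ≠ 0 := by
        have : 0 < k := by omega
        exact_mod_cast this.ne'
      have e : ((k : ℝ) + k) / k = 2 := by
        field_simp
        ring
      simp only [gX, Lam, lt_irrefl, if_false, e]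
    have hW : ∃ N₀ : ℕ, ∀ N : ℕ, N₀ ≤ N → ∃ q : ℕ, 2.05 * Real.sqrt (Real.logb 2 N) ≤ q ∧
        MakerWins k k N Cls.parallelogram q := by
      obtain ⟨N₀, hN₀⟩ := MP_6045b2_co.FairLattice.result.1 k 2.05 (by omega) (by norm_num)
        (logb_bound k hk)
      refine ⟨N₀, fun N hN => ?_⟩
      obtain ⟨q, hq, hM⟩ := hN₀ N hN
      exact ⟨q, hq, of_fair hM⟩
    exact ⟨hg, hW, not_formula _ _ 2.05 2 (by norm_num) (by norm_num) hg hW⟩
  refine ⟨key, fun hcon => ?_⟩
  exact (key 6 le_rfl).2.2 (hcon 6 6 Cls.parallelogram (by norm_num) (by norm_num))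

end Pool.Agent.Results.MP_58ead2_co.AchievementFails
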