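import Pool.Agent.W315.LatDefs
import Pool.Agent.W315.ForcerLat

/-!
The formula for the biased lattice avoidance numbers fails.
-/

set_option autoImplicit false
set_option linter.unusedVariables false

namespace Pool.Agent.Results.MP_58ead2_co.AvoidanceFails

open Finset Pool.Agent.W315.Lat Pool.Agent.W315.ForcerLat

lemma BB_le (k : ℕ) (hk : 39 ≤ k) : BB k k 14 ≤ 120 := by
  have hk39 : (39 : ℝ) ≤ k := by exact_mod_cast hk
  have hden : (0 : ℝ) < (k : ℝ) - (14 : ℕ) + 1 := by push_cast; linarith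
  have hθ : ((k : ℝ) + (14 : ℕ) - 1) / ((k : ℝ) - (14 : ℕ) + 1) ≤ 2 := by
    rw [div_le_iff₀ hden]
    push_cast
    linarith
  have hθ0 : 0 ≤ ((k : ℝ) + (14 : ℕ) - 1) / ((k : ℝ) - (14 : ℕ) + 1) := by
    apply div_nonneg _ hden.le
    push_cast
    linarith
  have h1 : BB k k 14 ≤ ∏ j ∈ range 14, (1 + 2 / ((j : ℝ) + 1)) := by
    unfold BB
    refine Finset.prod_le_prod (fun j _ => ?_) (fun j _ => ?_)
    · have h2 : 0 ≤ ((k : ℝ) + (14 : ℕ) - 1) / ((k : ℝ) - (14 : ℕ) + 1) / ((j : ℝ) + 1) :=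
        div_nonneg hθ0 (by positivity)
      linarith
    · have h2 : ((k : ℝ) + (14 : ℕ) - 1) / ((k : ℝ) - (14 : ℕ) + 1) / ((j : ℝ) + 1) ≤
          2 / ((j : ℝ) + 1) := div_le_div_of_nonneg_right hθ (by positivity)
      linarith
  refine h1.trans (le_of_eq ?_)
  simp only [Finset.prod_range_succ, Finset.prod_range_zero]
  norm_num

lemma logb_120 : Real.logb 2 120 < 6.92 := by
  rw [Real.logb_lt_iff_lt_rpow (by norm_num) (by norm_num)]
  have h : (2:ℝ) ^ (6.92:ℝ) = ((2:ℝ) ^ (173:ℕ)) ^ ((1:ℝ)/25) := by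
    rw [← Real.rpow_natCast, ← Real.rpow_mul (by norm_num)]; norm_num
  rw [h]
  have h7 : (120:ℝ) = ((120:ℝ) ^ (25:ℕ)) ^ ((1:ℝ)/25) := by
    rw [← Real.rpow_natCast, ← Real.rpow_mul (by norm_num)]; norm_num
  rw [h7]
  apply Real.rpow_lt_rpow (by positivity) _ (by norm_num)
  norm_num

lemma BB_pos (k : ℕ) (hk : 39 ≤ k) : 0 < BB k k 14 := by
  have hk39 : (39 : ℝ) ≤ k := by exact_mod_cast hk
  unfold BB
  refine Finset.prod_pos (fun j _ => ?_)
  have h2 : 0 ≤ ((k : ℝ) + (14 : ℕ) - 1) / ((k : ℝ) - (14 : ℕ) + 1) / ((j : ℝ) + 1) := by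
    apply div_nonneg (div_nonneg _ _) (by positivity)
    · push_cast; linarith
    · push_cast; linarith
  linarith

lemma logb_bound (k : ℕ) (hk : 39 ≤ k) :
    (2.01 : ℝ) ^ 2 * Real.logb 2 (BB k k 14) < 2 * (14 : ℕ) := by
  have h1 : Real.logb 2 (BB k k 14) ≤ Real.logb 2 120 :=
    Real.logb_le_logb_of_le (by norm_num) (BB_pos k hk) (BB_le k hk)
  have h2 := logb_120
  norm_num at h2 ⊢
  linarith

/-- For every `k ≥ 39` the formula for the avoidance number of parallelogram lattices fails in the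
`(k:k)` game, whoever moves first: for all large `N` Forcer wins for some `q ≥ 2.01 √(log₂ N)`, while
`h_X(N) = 2 √(log₂ N)`. In particular the statement of Q2 is false. -/
theorem result :
    (∀ k : ℕ, 39 ≤ k →
      (∀ N : ℕ, hX k k Cls.parallelogram N = 2 * Real.sqrt (Real.logb 2 N)) ∧
      (∃ N₀ : ℕ, ∀ N : ℕ, N₀ ≤ N → ∃ q : ℕ, 2.01 * Real.sqrt (Real.logb 2 N) ≤ q ∧
        ForcerWinsSecond k k N Cls.parallelogram q ∧
        ForcerWinsFirst k k N Cls.parallelogram q) ∧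
      ¬ Formula (fun N q => ForcerWinsSecond k k N Cls.parallelogram q)
        (hX k k Cls.parallelogram) ∧
      ¬ Formula (fun N q => ForcerWinsFirst k k N Cls.parallelogram q)
        (hX k k Cls.parallelogram)) ∧
    ¬ (∀ (a f : ℕ) (X : Cls), 1 ≤ a → 1 ≤ f →
      Formula (fun N q => ForcerWinsSecond a f N X q) (hX a f X)) ∧
    ¬ (∀ (a f : ℕ) (X : Cls), 1 ≤ a → 1 ≤ f →
      Formula (fun N q => ForcerWinsFirst a f N X q) (hX a f X)) := by
  have key : ∀ k : ℕ, 39 ≤ k →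
      (∀ N : ℕ, hX k k Cls.parallelogram N = 2 * Real.sqrt (Real.logb 2 N)) ∧
      (∃ N₀ : ℕ, ∀ N : ℕ, N₀ ≤ N → ∃ q : ℕ, 2.01 * Real.sqrt (Real.logb 2 N) ≤ q ∧
        ForcerWinsSecond k k N Cls.parallelogram q ∧
        ForcerWinsFirst k k N Cls.parallelogram q) ∧
      ¬ Formula (fun N q => ForcerWinsSecond k k N Cls.parallelogram q)
        (hX k k Cls.parallelogram) ∧
      ¬ Formula (fun N q => ForcerWinsFirst k k N Cls.parallelogram q)
        (hX k k Cls.parallelogram) := by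
    intro k hk
    have hg : ∀ N : ℕ, hX k k Cls.parallelogram N = 2 * Real.sqrt (Real.logb 2 N) := by
      intro N
      have hk0 : (k : ℝ) ≠ 0 := by
        have : 0 < k := by omega
        exact_mod_cast this.ne'
      have e : ((k : ℝ) + k) / k = 2 := by
        field_simp
        ring
      simp only [hX, e]
    obtain ⟨N₀, hN₀⟩ := forcer_lower k k 14 (by omega) (by norm_num) (by omega) 2.01
      (by norm_num) (logb_bound k hk)
    exact ⟨hg, ⟨N₀, hN₀⟩,
      not_formula _ _ 2.01 2 (by norm_num) (by norm_num) hg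
        ⟨N₀, fun N hN => by
          obtain ⟨q, h1, h2, -⟩ := hN₀ N hN
          exact ⟨q, h1, h2⟩⟩,
      not_formula _ _ 2.01 2 (by norm_num) (by norm_num) hg
        ⟨N₀, fun N hN => by
          obtain ⟨q, h1, -, h2⟩ := hN₀ N hN
          exact ⟨q, h1, h2⟩⟩⟩
  refine ⟨key, fun hcon => ?_, fun hcon => ?_⟩
  · exact (key 39 le_rfl).2.2.1 (hcon 39 39 Cls.parallelogram (by norm_num) (by norm_num))
  · exact (key 39 le_rfl).2.2.2 (hcon 39 39 Cls.parallelogram (by norm_num) (by norm_num))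

end Pool.Agent.Results.MP_58ead2_co.AvoidanceFails
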